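import Pool.Agent.H88.LS.Stm
import Pool.Agent.H18.PM.Pair

/-!
# MP_a6ebc6_nt, project LS: sieve windows
-/

set_option autoImplicit false

namespace Pool.Agent.H70.LS

open Finset Classical Pool.Agent.H88.LS Pool.Agent.H46.PM

/-- the product over the prime factors is at most the sum of `1 / d` over the divisors -/
theorem prod_le_sum_divisors (j : ℕ) (hj : j ≠ 0) :
    ∏ q ∈ j.primeFactors, (1 + 1 / (q : ℝ)) ≤ ∑ d ∈ j.divisors, 1 / (d : ℝ) := by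
  rw [Finset.prod_one_add]
  have h1 : ∑ T ∈ j.primeFactors.powerset, ∏ q ∈ T, 1 / (q : ℝ) =
      ∑ T ∈ j.primeFactors.powerset, 1 / ((∏ q ∈ T, q : ℕ) : ℝ) := by
    refine Finset.sum_congr rfl fun T _ => ?_
    rw [Finset.prod_div_distrib, Finset.prod_const_one, Nat.cast_prod]
  have hinj : Set.InjOn (fun T : Finset ℕ => ∏ q ∈ T, q) (j.primeFactors.powerset : Set (Finset ℕ)) := by
    intro T hT U hU h
    rw [mem_coe, mem_powerset] at hT hU
    have h2 : (∏ q ∈ T, q).primeFactors = T :=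
      Nat.primeFactors_prod fun q hq => Nat.prime_of_mem_primeFactors (hT hq)
    have h3 : (∏ q ∈ U, q).primeFactors = U :=
      Nat.primeFactors_prod fun q hq => Nat.prime_of_mem_primeFactors (hU hq)
    have h4 : ∏ q ∈ T, q = ∏ q ∈ U, q := h
    rw [← h2, h4, h3]
  rw [h1, ← Finset.sum_image (f := fun d : ℕ => 1 / (d : ℝ)) hinj]
  refine Finset.sum_le_sum_of_subset_of_nonneg ?_ fun d _ _ => by positivity
  intro d hd
  rw [mem_image] at hd
  obtain ⟨T, hT, rfl⟩ := hd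
  rw [mem_powerset] at hT
  rw [Nat.mem_divisors]
  exact ⟨Finset.prod_primes_dvd j (fun q hq => (Nat.prime_of_mem_primeFactors (hT hq)).prime)
    fun q hq => Nat.dvd_of_mem_primeFactors (hT hq), hj⟩

/-- multiples of `d` in a short interval -/
theorem mult_count (a b d : ℕ) (hab : a ≤ b) (hd : 0 < d) :
    (((Ioc a b).filter fun j => d ∣ j).card : ℝ) ≤ ((b : ℝ) - a) / d + 1 := by
  have h1 : ((Ioc 0 b).filter fun j => d ∣ j).card = b / d := Nat.Ioc_filter_dvd_card_eq_div b d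
  have h2 : ((Ioc 0 a).filter fun j => d ∣ j).card = a / d := Nat.Ioc_filter_dvd_card_eq_div a d
  have h3 : ((Ioc 0 a).filter fun j => d ∣ j).card + ((Ioc a b).filter fun j => d ∣ j).card ≤
      ((Ioc 0 b).filter fun j => d ∣ j).card := by
    rw [← card_union_of_disjoint]
    · refine card_le_card fun j hj => ?_
      rw [mem_union, mem_filter, mem_filter, mem_Ioc, mem_Ioc] at hj
      rw [mem_filter, mem_Ioc]
      rcases hj with h | h
      · exact ⟨⟨h.1.1, by omega⟩, h.2⟩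
      · exact ⟨⟨by omega, h.1.2⟩, h.2⟩
    · rw [Finset.disjoint_left]
      intro j hj hj2
      rw [mem_filter, mem_Ioc] at hj hj2
      omega
  rw [h1, h2] at h3
  have h4 : ((a / d : ℕ) : ℝ) + (((Ioc a b).filter fun j => d ∣ j).card : ℝ) ≤ ((b / d : ℕ) : ℝ) := by
    exact_mod_cast h3
  have h5 : ((b / d : ℕ) : ℝ) ≤ (b : ℝ) / d := Nat.cast_div_le
  have hdr : (0 : ℝ) < d := by exact_mod_cast hd
  have h6 : (a : ℝ) / d ≤ ((a / d : ℕ) : ℝ) + 1 := by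
    rw [div_le_iff₀ hdr]
    have h7 : a ≤ (a / d + 1) * d := by
      have h8 := Nat.div_add_mod a d
      have h9 := Nat.mod_lt a hd
      nlinarith
    exact_mod_cast h7
  rw [sub_div]
  linarith

/-- the harmonic sum -/
theorem harm_le (M : ℕ) : ∑ d ∈ Icc 1 M, 1 / (d : ℝ) ≤ 1 + Real.log M := by
  have h1 := harmonic_le_one_add_log M
  rw [harmonic_eq_sum_Icc] at h1
  push_cast at h1
  simpa [one_div] using h1

/-- the sum of the inverse squares -/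
theorem sq_le (M : ℕ) : ∑ d ∈ Icc 1 M, 1 / (d : ℝ) ^ 2 ≤ 2 := by
  have h1 := sum_Ioo_inv_sq_le (α := ℝ) 0 (M + 1)
  have h2 : Ioo 0 (M + 1) = Icc 1 M := by
    ext i
    rw [mem_Ioo, mem_Icc]
    omega
  rw [h2] at h1
  norm_num at h1
  simpa [one_div] using h1

/-- `Gj` over a short interval -/
theorem sum_Gj_window (a b : ℕ) (hab : a ≤ b) :
    ∑ j ∈ Ioc a b, Gj j ≤ 4 * ((b : ℝ) - a) + 2 * (1 + Real.log b) := by
  have hab' : (0 : ℝ) ≤ (b : ℝ) - a := by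
    have : (a : ℝ) ≤ b := by exact_mod_cast hab
    linarith
  have h1 : ∑ j ∈ Ioc a b, Gj j ≤ 2 * ∑ j ∈ Ioc a b, ∑ d ∈ (Icc 1 b).filter (fun d => d ∣ j), 1 / (d : ℝ) := by
    rw [Finset.mul_sum]
    refine Finset.sum_le_sum fun j hj => ?_
    rw [mem_Ioc] at hj
    refine (Gj_le j).trans (mul_le_mul_of_nonneg_left ?_ (by norm_num))
    refine (prod_le_sum_divisors j (by omega)).trans ?_
    refine Finset.sum_le_sum_of_subset_of_nonneg ?_ fun d _ _ => by positivity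
    intro d hd
    rw [Nat.mem_divisors] at hd
    have h2 := Nat.le_of_dvd (by omega) hd.1
    have h3 := Nat.pos_of_dvd_of_pos hd.1 (by omega)
    rw [mem_filter, mem_Icc]
    exact ⟨⟨h3, by omega⟩, hd.1⟩
  have h2 : ∑ j ∈ Ioc a b, ∑ d ∈ (Icc 1 b).filter (fun d => d ∣ j), 1 / (d : ℝ) =
      ∑ d ∈ Icc 1 b, (((Ioc a b).filter fun j => d ∣ j).card : ℝ) * (1 / (d : ℝ)) := by
    simp_rw [Finset.sum_filter]
    rw [Finset.sum_comm]
    refine Finset.sum_congr rfl fun d _ => ?_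
    rw [← Finset.sum_filter, Finset.sum_const, nsmul_eq_mul]
  have h3 : ∑ d ∈ Icc 1 b, (((Ioc a b).filter fun j => d ∣ j).card : ℝ) * (1 / (d : ℝ)) ≤
      ∑ d ∈ Icc 1 b, (((b : ℝ) - a) * (1 / (d : ℝ) ^ 2) + 1 / (d : ℝ)) := by
    refine Finset.sum_le_sum fun d hd => ?_
    rw [mem_Icc] at hd
    have hdr : (0 : ℝ) < d := by exact_mod_cast hd.1
    refine (mul_le_mul_of_nonneg_right (mult_count a b d hab hd.1) (by positivity)).trans ?_
    apply le_of_eq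
    field_simp
  rw [Finset.sum_add_distrib, ← Finset.mul_sum] at h3
  have h4 := mul_le_mul_of_nonneg_left (sq_le b) hab'
  have h5 := harm_le b
  rw [h2] at h1
  linarith

/-- the union bound -/
theorem union_bound (x a b : ℕ) (J K : ℝ)
    (hW : ∀ j : ℕ, 1 ≤ j → J ≤ j → (j : ℝ) ≤ K → j ∈ Ioc a b) (hab : a ≤ b) (Y : ℕ) (hY : 1 ≤ Y) :
    (((pw x (2 * x)).filter fun p => ∃ j : ℕ, 1 ≤ j ∧ J ≤ j ∧ (j : ℝ) ≤ K ∧
      (p + j).Prime).card : ℝ) ≤
      (4 * ((b : ℝ) - a) + 2 * (1 + Real.log b)) * (((2 * x : ℕ) : ℝ) / Real.log (Y + 1) ^ 2) +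
        ((b : ℝ) - a) * ((Y : ℝ) ^ 12 + (Y : ℝ) ^ 2 + 1) := by
  have hsub : ((pw x (2 * x)).filter fun p => ∃ j : ℕ, 1 ≤ j ∧ J ≤ j ∧ (j : ℝ) ≤ K ∧
      (p + j).Prime) ⊆
      (Ioc a b).biUnion fun j => (range (2 * x + 1)).filter fun p => p.Prime ∧ (p + j).Prime := by
    intro p hp
    rw [mem_filter, pw, mem_filter, mem_Ioc] at hp
    obtain ⟨⟨hp1, hp2⟩, j, hj1, hj2, hj3, hj4⟩ := hp
    rw [mem_biUnion]
    refine ⟨j, hW j hj1 hj2 hj3, ?_⟩
    rw [mem_filter, mem_range]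
    exact ⟨by omega, hp2, hj4⟩
  have hcard : (((pw x (2 * x)).filter fun p => ∃ j : ℕ, 1 ≤ j ∧ J ≤ j ∧ (j : ℝ) ≤ K ∧
      (p + j).Prime).card : ℝ) ≤
      ∑ j ∈ Ioc a b, (((range (2 * x + 1)).filter fun p => p.Prime ∧ (p + j).Prime).card : ℝ) := by
    exact_mod_cast (card_le_card hsub).trans card_biUnion_le
  have hsum : ∑ j ∈ Ioc a b,
      (((range (2 * x + 1)).filter fun p => p.Prime ∧ (p + j).Prime).card : ℝ) ≤
      ∑ j ∈ Ioc a b, (Gj j * (((2 * x : ℕ) : ℝ) / Real.log (Y + 1) ^ 2) +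
        ((Y : ℝ) ^ 12 + (Y : ℝ) ^ 2 + 1)) := by
    refine Finset.sum_le_sum fun j hj => ?_
    rw [mem_Ioc] at hj
    exact Pool.Agent.H18.PM.PairAux.all_bound (2 * x) j Y (by omega) hY
  refine hcard.trans (hsum.trans ?_)
  rw [Finset.sum_add_distrib, ← Finset.sum_mul, Finset.sum_const, Nat.card_Ioc, nsmul_eq_mul,
    Nat.cast_sub hab]
  have h1 := mul_le_mul_of_nonneg_right (sum_Gj_window a b hab)
    (by positivity : (0 : ℝ) ≤ ((2 * x : ℕ) : ℝ) / Real.log (Y + 1) ^ 2)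
  linarith

/-- the choice of `Y` -/
theorem Y_facts (a : ℕ) (ha : 2 ≤ a) : ∃ Y : ℕ, 1 ≤ Y ∧ Real.log a / 24 ≤ Real.log ((Y : ℝ) + 1) ∧
    (Y : ℝ) ^ 12 + (Y : ℝ) ^ 2 + 1 ≤ 3 * Real.sqrt a := by
  have ha1 : (1 : ℝ) ≤ a := by exact_mod_cast (by omega : 1 ≤ a)
  have hY1 : ((⌊(a : ℝ) ^ (1 / 24 : ℝ)⌋₊ : ℕ) : ℝ) ≤ (a : ℝ) ^ (1 / 24 : ℝ) :=
    Nat.floor_le (by positivity)
  have hY2 : (a : ℝ) ^ (1 / 24 : ℝ) < (⌊(a : ℝ) ^ (1 / 24 : ℝ)⌋₊ : ℝ) + 1 := Nat.lt_floor_add_one _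
  have hY : 1 ≤ ⌊(a : ℝ) ^ (1 / 24 : ℝ)⌋₊ := by
    rw [Nat.one_le_floor_iff]
    exact Real.one_le_rpow ha1 (by norm_num)
  set Y : ℕ := ⌊(a : ℝ) ^ (1 / 24 : ℝ)⌋₊ with hYdef
  have hYr : (1 : ℝ) ≤ Y := by exact_mod_cast hY
  refine ⟨Y, hY, ?_, ?_⟩
  · have h1 := Real.log_le_log (by positivity) hY2.le
    rw [Real.log_rpow (by linarith)] at h1
    linarith
  · have hY12 : (Y : ℝ) ^ 12 ≤ Real.sqrt a := by
      have h1 : (Y : ℝ) ^ 12 ≤ ((a : ℝ) ^ (1 / 24 : ℝ)) ^ 12 :=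
        pow_le_pow_left₀ (by linarith) hY1 12
      have h2 : ((a : ℝ) ^ (1 / 24 : ℝ)) ^ 12 = (a : ℝ) ^ (1 / 2 : ℝ) := by
        rw [← Real.rpow_natCast, ← Real.rpow_mul (by linarith)]
        norm_num
      rw [h2] at h1
      rw [Real.sqrt_eq_rpow]
      exact h1
    have hYY : (Y : ℝ) ^ 2 ≤ (Y : ℝ) ^ 12 := pow_le_pow_right₀ hYr (by norm_num)
    have hY1' : (1 : ℝ) ≤ (Y : ℝ) ^ 12 := one_le_pow₀ hYr
    linarith

/-- the error term is small -/
theorem err_small (x : ℕ) (hx : (576 : ℝ) ^ 4 ≤ x) :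
    6 * Real.log x ^ 2 * Real.sqrt ((2 * x : ℕ) : ℝ) ≤ x := by
  have hx0 : (0 : ℝ) < x := lt_of_lt_of_le (by norm_num) hx
  set r : ℝ := (x : ℝ) ^ (1 / 8 : ℝ) with hr
  have hr0 : 0 < r := by positivity
  have hr8 : r ^ 8 = x := by
    rw [hr, ← Real.rpow_natCast, ← Real.rpow_mul hx0.le]
    norm_num
  have hlog : Real.log x ≤ 8 * r := by
    rw [← hr8, Real.log_pow]
    have := Real.log_le_sub_one_of_pos hr0
    push_cast
    linarith
  have hlog0 : 0 ≤ Real.log x := Real.log_nonneg (by linarith [(by norm_num : (1 : ℝ) ≤ 576 ^ 4)])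
  have hlog2 : Real.log x ^ 2 ≤ 64 * r ^ 2 := by
    have := pow_le_pow_left₀ hlog0 hlog 2
    nlinarith
  have hs : Real.sqrt ((2 * x : ℕ) : ℝ) ≤ 3 / 2 * r ^ 4 := by
    apply Real.sqrt_le_iff.2
    refine ⟨by positivity, ?_⟩
    push_cast
    have : (3 / 2 * r ^ 4) ^ 2 = 9 / 4 * r ^ 8 := by ring
    rw [this, hr8]
    linarith
  have hr24 : 576 ≤ r ^ 2 := by
    by_contra h
    push Not at h
    have h1 : (r ^ 2) ^ 4 < 576 ^ 4 := pow_lt_pow_left₀ h (by positivity) (by norm_num)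
    have h2 : (r ^ 2) ^ 4 = r ^ 8 := by ring
    rw [h2, hr8] at h1
    linarith
  have h6 : 0 ≤ r ^ 6 := by positivity
  calc 6 * Real.log x ^ 2 * Real.sqrt ((2 * x : ℕ) : ℝ) ≤ 6 * (64 * r ^ 2) * (3 / 2 * r ^ 4) :=
        mul_le_mul (by linarith) hs (Real.sqrt_nonneg _) (by positivity)
    _ = 576 * r ^ 6 := by ring
    _ ≤ r ^ 2 * r ^ 6 := mul_le_mul_of_nonneg_right hr24 h6
    _ = r ^ 8 := by ring
    _ = x := hr8

theorem sv : SSv := by
  refine ⟨9217, by norm_num, fun δ hδ hδ1 => ?_⟩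
  refine ⟨max ⌈Real.exp (16 / δ ^ 2)⌉₊ (576 ^ 4), fun x hx J hJ0 hJ1 => ?_⟩
  have hx1 : Real.exp (16 / δ ^ 2) ≤ x := by
    have h1 : ⌈Real.exp (16 / δ ^ 2)⌉₊ ≤ x := (le_max_left _ _).trans hx
    exact (Nat.le_ceil _).trans (by exact_mod_cast h1)
  have hx2 : (576 : ℝ) ^ 4 ≤ x := by
    have h1 : 576 ^ 4 ≤ x := (le_max_right _ _).trans hx
    exact_mod_cast h1
  have hx0 : (0 : ℝ) < x := lt_of_lt_of_le (by norm_num) hx2
  have herr := err_small x hx2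
  have hL : 16 / δ ^ 2 ≤ Real.log x := by
    rw [Real.le_log_iff_exp_le hx0]
    exact hx1
  have hlog2 : Real.log x ≤ Real.log ((2 * x : ℕ) : ℝ) := by
    apply Real.log_le_log hx0
    push_cast
    linarith
  obtain ⟨Y, hY, hYlog, hYerr⟩ := Y_facts (2 * x) (by
    have : 0 < x := by exact_mod_cast hx0
    omega)
  set L := Real.log x with hLdef
  -- consequences
  have hδ2 : 0 < δ ^ 2 := by positivity
  have hδL2 : 16 ≤ δ ^ 2 * L := by
    rw [div_le_iff₀ hδ2] at hL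
    linarith
  have hL16 : 16 ≤ L := by
    have h1 : δ ^ 2 ≤ 1 := by nlinarith
    nlinarith
  have hL0 : 0 < L := by linarith
  have hδL : 16 ≤ δ * L := by nlinarith
  -- the window
  set b : ℕ := ⌊J + δ * L⌋₊ with hb
  set a : ℕ := ⌈J⌉₊ - 1 with ha
  have haJ : (a : ℝ) ≤ J := by
    rcases Nat.eq_zero_or_pos ⌈J⌉₊ with h | h
    · rw [ha, h]
      simpa using hJ0
    · have h1 := Nat.ceil_lt_add_one hJ0
      rw [ha, Nat.cast_sub h]
      push_cast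
      linarith
  have haJ2 : J - 1 ≤ a := by
    have h1 := Nat.le_ceil J
    have h2 : (⌈J⌉₊ : ℝ) ≤ ((a + 1 : ℕ) : ℝ) := by
      exact_mod_cast (by omega : ⌈J⌉₊ ≤ a + 1)
    push_cast at h2
    linarith
  have hab : a ≤ b := by
    rw [hb]
    apply Nat.le_floor
    linarith
  have hbJ : (b : ℝ) ≤ J + δ * L := Nat.floor_le (by linarith)
  have hW : ∀ j : ℕ, 1 ≤ j → J ≤ j → (j : ℝ) ≤ J + δ * L → j ∈ Ioc a b := by
    intro j hj1 hj2 hj3
    rw [mem_Ioc]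
    refine ⟨?_, Nat.le_floor hj3⟩
    have : ⌈J⌉₊ ≤ j := Nat.ceil_le.2 hj2
    omega
  have hmain := union_bound x a b J (J + δ * L) hW hab Y hY
  refine hmain.trans ?_
  have hba : (b : ℝ) - a ≤ δ * L + 1 := by linarith
  have hba0 : (0 : ℝ) ≤ (b : ℝ) - a := by
    have : (a : ℝ) ≤ b := by exact_mod_cast hab
    linarith
  have hb4 : (b : ℝ) ≤ 4 * L := by nlinarith
  have hlogb : Real.log b ≤ δ * L + δ * L / 4 := by
    rcases Nat.eq_zero_or_pos b with h | h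
    · rw [h]
      simp only [Nat.cast_zero, Real.log_zero]
      positivity
    · have hbr : (0 : ℝ) < b := by exact_mod_cast h
      have h1 : Real.log (δ / 4 * b) ≤ δ / 4 * b - 1 := Real.log_le_sub_one_of_pos (by positivity)
      have h2 : Real.log (4 / δ) ≤ 4 / δ - 1 := Real.log_le_sub_one_of_pos (by positivity)
      have h3 : Real.log (b : ℝ) = Real.log (δ / 4 * b) + Real.log (4 / δ) := by
        rw [← Real.log_mul (by positivity) (by positivity)]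
        congr 1
        field_simp
      have h4 : δ / 4 * b ≤ δ * L := by nlinarith
      have h5 : 4 / δ ≤ δ * L / 4 := by
        rw [div_le_iff₀ hδ]
        nlinarith
      linarith
  have hG : 4 * ((b : ℝ) - a) + 2 * (1 + Real.log b) ≤ 8 * (δ * L) := by linarith
  have hA : ((2 * x : ℕ) : ℝ) / Real.log (Y + 1) ^ 2 ≤ 1152 * x / L ^ 2 := by
    have h1 : L ≤ 24 * Real.log ((Y : ℝ) + 1) := by linarith
    have h2 := pow_le_pow_left₀ hL0.le h1 2
    have h3 : 0 < Real.log ((Y : ℝ) + 1) := by linarith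
    rw [div_le_div_iff₀ (by positivity) (by positivity)]
    push_cast
    nlinarith
  have hA0 : 0 ≤ ((2 * x : ℕ) : ℝ) / Real.log (Y + 1) ^ 2 := by positivity
  have h1 : (4 * ((b : ℝ) - a) + 2 * (1 + Real.log b)) *
      (((2 * x : ℕ) : ℝ) / Real.log (Y + 1) ^ 2) ≤ 8 * (δ * L) * (1152 * x / L ^ 2) :=
    mul_le_mul hG hA hA0 (by positivity)
  have h2 : 8 * (δ * L) * (1152 * x / L ^ 2) = 9216 * δ * x / L := by
    field_simp
    norm_num
  have h3 : ((b : ℝ) - a) * ((Y : ℝ) ^ 12 + (Y : ℝ) ^ 2 + 1) ≤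
      (2 * (δ * L)) * (3 * Real.sqrt ((2 * x : ℕ) : ℝ)) :=
    mul_le_mul (by linarith) hYerr (by positivity) (by positivity)
  have h4 : (2 * (δ * L)) * (3 * Real.sqrt ((2 * x : ℕ) : ℝ)) ≤ δ * x / L := by
    rw [le_div_iff₀ hL0]
    nlinarith
  have h5 : (9217 : ℝ) * δ * x / L = 9216 * δ * x / L + δ * x / L := by ring
  rw [h5]
  linarith

end Pool.Agent.H70.LS
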